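import Pool.Agent.K3h83.IN.Stm2

/-! MP_5ecade_al (helper83): brick S17. -/

set_option autoImplicit false

open scoped BigOperators Classical

namespace Pool.Agent.K3h60.IN

open Pool.Agent.K3h83.IN

theorem t_S17 : S17 := by
  intro G _ _ Z mu hmu
  let A := Abelianization G
  let π : G →* A := Abelianization.of
  let Zb : Subgroup A := Z.map π
  -- the character of the image
  let ρ : Z →* Zb := (π.comp Z.subtype).codRestrict Zb (fun z => ⟨z, z.2, rfl⟩)
  have hρs : Function.Surjective ρ := by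
    rintro ⟨_, z, hz, rfl⟩
    exact ⟨⟨z, hz⟩, rfl⟩
  have hker : ρ.ker ≤ mu.ker := by
    intro z hz
    rw [MonoidHom.mem_ker] at hz ⊢
    apply hmu
    have h1 : π (z : G) = 1 := congrArg Subtype.val hz
    rwa [← MonoidHom.mem_ker, Abelianization.ker_of] at h1
  let nu : Zb →* ℂˣ := (ρ.liftOfSurjective hρs) ⟨mu, hker⟩
  haveI : Finite A := inferInstanceAs (Finite (G ⧸ commutator G))
  have hsurj := MonoidHom.domRestrict_surjective (M := ℂ) (G := A) Zb
  obtain ⟨g, hg⟩ := hsurj nu
  refine ⟨g.comp π, fun z => ?_⟩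
  have h2 : g (π z) = nu (ρ z) := by
    rw [← hg]
    rfl
  rw [MonoidHom.comp_apply, h2]
  exact MonoidHom.liftOfRightInverse_comp_apply _ _ _ _ _

end Pool.Agent.K3h60.IN
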