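import Pool.Agent.K3h83.IN.Stm

/-! MP_5ecade_al (helper83): bricks S4c and S4d. -/

set_option autoImplicit false

open scoped BigOperators Classical

namespace Pool.Agent.K3h60.IN

open Pool.Agent.K3h83.IN

theorem t_S4c : S4c := by
  intro X R _ _ _ htor D hD x₀ hsum
  suffices H : ∀ n : ℕ, ∀ x ∈ Subgroup.zpowers x₀, orderOf x = n → D x = 0 from
    H _ x₀ (Subgroup.mem_zpowers x₀) rfl
  intro n
  induction n using Nat.strong_induction_on with
  | _ n ih =>
    intro x hx hxn
    letI := Fintype.ofFinite X
    have hn : 0 < n := hxn ▸ orderOf_pos x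
    have h1 : ∑ᶠ y ∈ Subgroup.zpowers x, D y = ∑ k ∈ Finset.range n, D (x ^ k) := by
      have h2 : ((Finset.range n).image (fun k => x ^ k) : Finset X) =
          Finset.univ.filter (fun y => y ∈ Subgroup.zpowers x) := by
        ext y
        simp only [Finset.mem_image, Finset.mem_range, Finset.mem_filter, Finset.mem_univ, true_and]
        constructor
        · rintro ⟨k, -, rfl⟩
          exact Subgroup.npow_mem_zpowers x k
        · intro hy
          obtain ⟨k, hk, h3⟩ := (mem_zpowers_iff_mem_range_orderOf.1 hy : y ∈ Finset.image _ _) |>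
            Finset.mem_image.1
          exact ⟨k, by rw [← hxn]; exact Finset.mem_range.1 hk, h3⟩
      change ∑ᶠ y ∈ (Subgroup.zpowers x : Set X), D y = _
      rw [finsum_mem_eq_finite_toFinset_sum _ (Set.toFinite (Subgroup.zpowers x : Set X))]
      have h3 : (Set.toFinite (Subgroup.zpowers x : Set X)).toFinset =
          (Finset.range n).image (fun k => x ^ k) := by
        rw [h2]
        ext y
        rw [Set.Finite.mem_toFinset, Finset.mem_filter]
        exact ⟨fun h => ⟨Finset.mem_univ _, h⟩, fun h => h.2⟩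
      rw [h3, Finset.sum_image]
      intro k hk l hl h
      simp only [Finset.coe_range, Set.mem_Iio] at hk hl
      exact pow_injOn_Iio_orderOf (by simpa [hxn] using hk) (by simpa [hxn] using hl) h
    have h4 : ∑ k ∈ Finset.range n, D (x ^ k) = (Nat.totient n) • D x := by
      rw [← Finset.sum_filter_add_sum_filter_not (Finset.range n) (fun k => Nat.Coprime n k)]
      have h5 : ∑ k ∈ (Finset.range n).filter (fun k => Nat.Coprime n k), D (x ^ k) =
          (Nat.totient n) • D x := by
        rw [Finset.sum_congr rfl (g := fun _ => D x)]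
        · rw [Finset.sum_const]
          rfl
        · intro k hk
          rw [Finset.mem_filter] at hk
          exact hD x k (by rw [hxn]; exact hk.2.symm)
      have h6 : ∑ k ∈ (Finset.range n).filter (fun k => ¬ Nat.Coprime n k), D (x ^ k) = 0 := by
        apply Finset.sum_eq_zero
        intro k hk
        rw [Finset.mem_filter] at hk
        refine ih (orderOf (x ^ k)) ?_ (x ^ k) (Subgroup.pow_mem _ hx k) rfl
        rw [orderOf_pow, hxn]
        have hg : 1 < Nat.gcd n k := by
          have h7 : 0 < Nat.gcd n k := Nat.gcd_pos_of_pos_left _ hn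
          have h8 : Nat.gcd n k ≠ 1 := hk.2
          omega
        exact Nat.div_lt_self hn hg
      rw [h5, h6, add_zero]
    have h9 := hsum x hx
    rw [h1, h4] at h9
    exact htor _ _ (Nat.totient_pos.2 hn).ne' h9

theorem t_S4d : S4d := by
  intro A _ _ nu mu hker
  -- the range of nu is a finite subgroup of ℂˣ, so it is cyclic
  haveI : Finite nu.range := by
    have : Finite (Set.range nu) := Set.finite_range nu
    exact this
  haveI : IsCyclic nu.range := isCyclic_subgroup_units nu.range |> fun h => h
  obtain ⟨⟨g, hg⟩, hgen⟩ := IsCyclic.exists_generator (α := nu.range)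
  obtain ⟨a, rfl⟩ := hg
  have hgen' : ∀ b : A, ∃ i : ℤ, nu b = nu a ^ i := by
    intro b
    obtain ⟨i, hi⟩ := hgen ⟨nu b, ⟨b, rfl⟩⟩
    refine ⟨i, ?_⟩
    have := congrArg Subtype.val hi
    simpa using this.symm
  set o := orderOf (nu a) with ho
  have ho0 : 0 < o := by
    rw [ho, orderOf_pos_iff]
    exact MonoidHom.isOfFinOrder nu (isOfFinOrder_of_finite a)
  have h1 : mu a ^ o = 1 := by
    rw [← map_pow]
    apply hker
    rw [MonoidHom.mem_ker, map_pow]
    exact pow_orderOf_eq_one _
  have h2 : IsPrimitiveRoot (nu a) o := IsPrimitiveRoot.orderOf _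
  haveI : NeZero o := ⟨ho0.ne'⟩
  have h3 : mu a ∈ rootsOfUnity o ℂ := by
    rw [mem_rootsOfUnity]
    exact h1
  have h4 := h2.zpowers_eq
  rw [← h4] at h3
  obtain ⟨k, hk⟩ := h3
  refine ⟨k, ?_⟩
  ext b
  obtain ⟨i, hi⟩ := hgen' b
  have h5 : mu b = mu a ^ i := by
    have : b * (a ^ i)⁻¹ ∈ nu.ker := by
      rw [MonoidHom.mem_ker, map_mul, map_inv, map_zpow, hi, mul_inv_cancel]
    have := hker this
    rw [MonoidHom.mem_ker, map_mul, map_inv, map_zpow, mul_inv_eq_one] at this
    exact this
  have hk' : nu a ^ k = mu a := hk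
  have : (nu ^ k) b = mu b := by
    rw [h5, ← hk', MonoidHom.zpow_apply, hi, ← zpow_mul, ← zpow_mul, mul_comm]
  exact congrArg Units.val this

end Pool.Agent.K3h60.IN
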